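import Mathlib

open Polynomial

namespace Pool.Agent.Results.MP_e68b86_nt.Root

/-- `S P s n` is the term `S(n)` for `n ≥ 1` (the value at `n = 0` is a dummy `s`). -/
def S (P : ℤ[X]) (s : ℕ) : ℕ → ℤ
  | 0 => s
  | 1 => s
  | n + 2 => |S P s (n + 1) - (Int.gcd (S P s (n + 1)) (P.eval ((n + 2 : ℕ) : ℤ)) : ℤ)|

/-- A positive rational prime. -/
def PosPrime (z : ℤ) : Prop := 0 < z ∧ Prime z

/-- The hypotheses on the family `Q 0, …, Q (m-1)`. -/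
def Adm (m : ℕ) (Q : Fin m → ℤ[X]) : Prop :=
  1 ≤ m ∧ (∀ j, Irreducible (Q j) ∧ 0 < (Q j).natDegree) ∧
    {k : ℕ | 1 ≤ k ∧ ∀ j, PosPrime ((Q j).eval (k : ℤ))}.Infinite

/-- `s` is good for `P = ∏ Q j`. -/
def Good (m : ℕ) (Q : Fin m → ℤ[X]) (s : ℕ) : Prop :=
  {n : ℕ | 1 ≤ n ∧ S (∏ j, Q j) s n = 0}.Infinite ∧
    ∀ n : ℕ, 2 ≤ n → S (∏ j, Q j) s n = 0 → ∀ j, PosPrime ((Q j).eval ((n : ℤ) + 1))

lemma adm : Adm 1 (fun _ => X - C 2) := by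
  refine ⟨le_rfl, fun _ => ⟨irreducible_X_sub_C 2, by rw [natDegree_X_sub_C]; norm_num⟩, ?_⟩
  have hinj : Function.Injective (fun p : ℕ => p + 2) := fun a b h => by simpa using h
  refine ((Nat.infinite_setOf_prime).image hinj.injOn).mono ?_
  rintro _ ⟨p, hp, rfl⟩
  have hp' : p.Prime := hp
  refine ⟨by simp, fun _ => ?_⟩
  have e : (X - C 2 : ℤ[X]).eval (((p + 2 : ℕ)) : ℤ) = p := by simp
  show PosPrime ((X - C 2 : ℤ[X]).eval (((p + 2 : ℕ)) : ℤ))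
  rw [e]
  exact ⟨by exact_mod_cast hp'.pos, Nat.prime_iff_prime_int.1 hp'⟩

lemma not_good (s : ℕ) : ¬ Good 1 (fun _ => X - C 2) s := by
  rintro ⟨-, h⟩
  have h0 : S (∏ j : Fin 1, (fun _ => X - C 2 : Fin 1 → ℤ[X]) j) s 2 = 0 := by
    show |(s : ℤ) - _| = 0
    have e1 : S (∏ j : Fin 1, (fun _ => X - C 2 : Fin 1 → ℤ[X]) j) s (0 + 1) = s := rfl
    rw [e1]
    simp
  have h1 := (h 2 le_rfl h0 0).2
  have e : (X - C 2 : ℤ[X]).eval (((2 : ℕ) : ℤ) + 1) = 1 := by simp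
  rw [e] at h1
  exact not_prime_one h1

theorem result :
    (Adm 1 (fun _ => X - C 2) ∧ ∀ s, ¬ Good 1 (fun _ => X - C 2) s) ∧
    ¬ ∀ (m : ℕ) (Q : Fin m → ℤ[X]), Adm m Q → {s : ℕ | 1 ≤ s ∧ Good m Q s}.Infinite := by
  refine ⟨⟨adm, not_good⟩, fun h => ?_⟩
  obtain ⟨s, hs⟩ := (h 1 _ adm).nonempty
  exact not_good s hs.2

end Pool.Agent.Results.MP_e68b86_nt.Root
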